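import Mathlib
import Pool.Agent.Helper57.ChromMain

/-!
# Cross-chromatic-intersecting families of graphs: a quadratic exponent with an explicit constant
-/

set_option autoImplicit false

namespace Pool.Agent.Results.MP_248d64_co.CrossQuadratic

open Finset Pool.Agent.Helper57

/-- The graph `G` cannot be properly coloured with fewer than `t` colours. -/
def ChromAtLeast {n : ℕ} (t : ℕ) (G : SimpleGraph (Fin n)) : Prop :=
  ∀ m : ℕ, m < t → ¬ G.Colorable m

/-- Every member of `A` meets every member of `B` in a graph of chromatic number at least `t`. -/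
def CrossChromInt {n : ℕ} (t : ℕ) (A B : Finset (SimpleGraph (Fin n))) : Prop :=
  ∀ G ∈ A, ∀ H ∈ B, ChromAtLeast t (G ⊓ H)

/-- The family of edge sets of a family of graphs. -/
noncomputable def edgeFam (n : ℕ) (F : Finset (SimpleGraph (Fin n))) :
    Finset (Finset (Sym2 (Fin n))) := by
  classical
  exact F.image (fun G => G.edgeSet.toFinset)

theorem edgeFam_card (n : ℕ) (F : Finset (SimpleGraph (Fin n))) : #(edgeFam n F) = #F := by
  classical
  unfold edgeFam
  apply Finset.card_image_of_injective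
  intro G H hGH
  simp only at hGH
  rw [← SimpleGraph.edgeSet_inj]
  exact Set.toFinset_inj.mp hGH

theorem edgeFam_sub (n : ℕ) (F : Finset (SimpleGraph (Fin n))) :
    ∀ x ∈ edgeFam n F, x ⊆ (univ : Finset (Sym2 (Fin n))).filter (fun e => ¬ e.IsDiag) := by
  classical
  intro x hx
  unfold edgeFam at hx
  rw [Finset.mem_image] at hx
  obtain ⟨G, _, rfl⟩ := hx
  intro e he
  rw [Set.mem_toFinset] at he
  rw [Finset.mem_filter]
  exact ⟨Finset.mem_univ _, G.not_isDiag_of_mem_edgeSet he⟩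

theorem edgeFam_chi (n : ℕ) (F F' : Finset (SimpleGraph (Fin n))) (t : ℕ)
    (hF : CrossChromInt t F F') : ∀ x ∈ edgeFam n F, ∀ y ∈ edgeFam n F', t ≤ chi (x ∩ y) := by
  classical
  intro x hx y hy
  unfold edgeFam at hx hy
  rw [Finset.mem_image] at hx hy
  obtain ⟨G, hG, rfl⟩ := hx
  obtain ⟨H, hH, rfl⟩ := hy
  have h1 := hF G hG H hH
  have h2 : (SimpleGraph.fromEdgeSet
      ((G.edgeSet.toFinset ∩ H.edgeSet.toFinset : Finset (Sym2 (Fin n))) :
        Set (Sym2 (Fin n)))) = G ⊓ H := by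
    ext u v
    rw [SimpleGraph.fromEdgeSet_adj, SimpleGraph.inf_adj]
    simp only [Finset.coe_inter, Set.coe_toFinset, Set.mem_inter_iff, SimpleGraph.mem_edgeSet]
    constructor
    · rintro ⟨h, _⟩; exact h
    · rintro h; exact ⟨h, h.1.ne⟩
  have h3 := colorable_chi (G.edgeSet.toFinset ∩ H.edgeSet.toFinset)
  rw [h2] at h3
  by_contra hcon
  push Not at hcon
  exact h1 _ hcon h3

theorem card_nondiag (n : ℕ) :
    #((univ : Finset (Sym2 (Fin n))).filter (fun e => ¬ e.IsDiag)) = n.choose 2 := by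
  have := Sym2.card_subtype_not_diag (α := Fin n)
  rw [Fintype.card_subtype, Fintype.card_fin] at this
  exact this

/-- the exponents reached by the linear and by the quadratic argument suffice for `t² / 25` -/
theorem exponent (t : ℕ) (ht : 3 ≤ t) : (2 * (t : ℝ) ^ 2 / 25 ≤ 2 * ((t - 1 : ℕ) : ℝ)) ∨
    ∃ s : ℕ, 0 < s ∧ 3 * s ≤ t ∧ 2 * (t : ℝ) ^ 2 / 25 ≤ (((t - 3 * s) * s : ℕ) : ℝ) := by
  rcases Nat.lt_or_ge t 24 with h | h
  · left
    interval_cases t <;> norm_num
  · right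
    -- `s` is the integer nearest to `t / 6`
    obtain ⟨q, r, hr, hq⟩ : ∃ q r : ℕ, r < 6 ∧ t = 6 * q + r :=
      ⟨t / 6, t % 6, Nat.mod_lt _ (by norm_num), (Nat.div_add_mod t 6).symm⟩
    have hq4 : 4 ≤ q := by omega
    have hq4' : (4 : ℝ) ≤ q := by exact_mod_cast hq4
    rcases Nat.lt_or_ge r 4 with h4 | h4
    · refine ⟨q, by omega, by omega, ?_⟩
      have e : t - 3 * q = 3 * q + r := by omega
      rw [e, hq]
      push_cast
      interval_cases r <;> push_cast <;> nlinarith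
    · refine ⟨q + 1, by omega, by omega, ?_⟩
      obtain ⟨r', hr'⟩ : ∃ r', r = r' + 3 := ⟨r - 3, by omega⟩
      have e : t - 3 * (q + 1) = 3 * q + r' := by omega
      rw [e, hq]
      have : r' = 1 ∨ r' = 2 := by omega
      rcases this with rfl | rfl <;> subst hr' <;> push_cast <;> nlinarith

/-- For all `t ≥ 3` and `n` and all families `A`, `B` of graphs on `n` labelled vertices such that
`χ(G ∩ H) ≥ t` for all `G ∈ A`, `H ∈ B`, the geometric mean of `|A|` and `|B|` is at most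
`2 ^ (C(n,2) - t² / 25)`; in particular (`B = A`) a `t`-chromatic-intersecting family has at most
`2 ^ (C(n,2) - t² / 25)` members. -/
theorem result : ∀ t : ℕ, 3 ≤ t → ∀ n : ℕ, ∀ A B : Finset (SimpleGraph (Fin n)),
    CrossChromInt t A B →
      Real.sqrt ((A.card : ℝ) * (B.card : ℝ)) ≤ (2 : ℝ) ^ ((n.choose 2 : ℝ) - (t : ℝ) ^ 2 / 25) := by
  intro t ht n F G hFG
  set S := (univ : Finset (Sym2 (Fin n))).filter (fun e => ¬ e.IsDiag) with hSdef
  have hS : ∀ e ∈ S, ¬ e.IsDiag := fun e he => (Finset.mem_filter.mp he).2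
  have hSc : #S = n.choose 2 := card_nondiag n
  have hchi := edgeFam_chi n F G t hFG
  have hc0 : (0 : ℝ) ≤ F.card := by positivity
  have suff : ∀ E : ℝ, 2 * (t : ℝ) ^ 2 / 25 ≤ E →
      (F.card : ℝ) * G.card * (2 : ℝ) ^ E ≤ 4 ^ (n.choose 2) →
      Real.sqrt ((F.card : ℝ) * (G.card : ℝ)) ≤
        (2 : ℝ) ^ ((n.choose 2 : ℝ) - (t : ℝ) ^ 2 / 25) := by
    intro E hE hb
    apply Real.sqrt_le_iff.2
    refine ⟨by positivity, ?_⟩
    have h1 : ((2 : ℝ) ^ ((n.choose 2 : ℝ) - (t : ℝ) ^ 2 / 25)) ^ 2 =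
        (2 : ℝ) ^ (2 * (n.choose 2 : ℝ) - 2 * (t : ℝ) ^ 2 / 25) := by
      rw [← Real.rpow_natCast, ← Real.rpow_mul (by norm_num)]
      congr 1
      push_cast
      ring
    rw [h1]
    have h2 : (2 : ℝ) ^ (2 * (n.choose 2 : ℝ) - E) ≤
        (2 : ℝ) ^ (2 * (n.choose 2 : ℝ) - 2 * (t : ℝ) ^ 2 / 25) :=
      Real.rpow_le_rpow_of_exponent_le (by norm_num) (by linarith)
    refine le_trans ?_ h2
    have h3 : (4 : ℝ) ^ (n.choose 2) = (2 : ℝ) ^ (2 * (n.choose 2 : ℝ)) := by
      rw [Real.rpow_mul (by norm_num), Real.rpow_natCast]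
      norm_num
    rw [Real.rpow_sub (by norm_num), le_div_iff₀ (by positivity), ← h3]
    exact hb
  rcases exponent t ht with hexp | ⟨s, hs0, hs3, hexp⟩
  · have hlin := cross_linear S hS (edgeFam n F) (edgeFam n G) (edgeFam_sub n F) (edgeFam_sub n G)
      (t - 1) (fun x hx y hy => by have := hchi x hx y hy; omega)
    rw [edgeFam_card, edgeFam_card, hSc] at hlin
    apply suff _ hexp
    have h4 : (2 : ℝ) ^ (2 * ((t - 1 : ℕ) : ℝ)) = 4 ^ (t - 1) := by
      rw [Real.rpow_mul (by norm_num), Real.rpow_natCast]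
      norm_num
    rw [h4]
    exact hlin
  · have hquad := cross_quadratic S hS (edgeFam n F) (edgeFam n G) (edgeFam_sub n F)
      (edgeFam_sub n G) t s hs0 hchi
    rw [edgeFam_card, edgeFam_card, hSc] at hquad
    apply suff _ hexp
    rw [Real.rpow_natCast]
    have e5 : ((2 : ℝ) ^ t) ^ s = (8 ^ s) ^ s * 2 ^ ((t - 3 * s) * s) := by
      have : (8 : ℝ) = 2 ^ 3 := by norm_num
      rw [this, ← pow_mul, ← pow_mul, ← pow_mul, ← pow_add]
      congr 1
      obtain ⟨r, hr⟩ : ∃ r, t = 3 * s + r := ⟨t - 3 * s, by omega⟩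
      rw [hr]
      have : 3 * s + r - 3 * s = r := by omega
      rw [this]
      ring
    rw [e5] at hquad
    have h8 : (0 : ℝ) < (8 ^ s) ^ s := by positivity
    have : (8 ^ s) ^ s * ((F.card : ℝ) * G.card * 2 ^ ((t - 3 * s) * s)) ≤
        (8 ^ s) ^ s * 4 ^ (n.choose 2) := by
      calc _ = (F.card : ℝ) * G.card * ((8 ^ s) ^ s * 2 ^ ((t - 3 * s) * s)) := by ring
        _ ≤ _ := hquad
    exact le_of_mul_le_mul_left this h8

end Pool.Agent.Results.MP_248d64_co.CrossQuadratic
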